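import Pool.Agent.Seat74.URD.Comb

/-!
# `Δ*`-recurrent points: many differences of return times are return times
-/

set_option autoImplicit false

open Filter Topology

namespace Pool.Agent.Seat74.URD

section
variable {X : Type*} [MetricSpace X] (T : X ≃ₜ X)

lemma iterate_symm_iterate (n s : ℕ) (h : s ≤ n) (x : X) :
    (T.symm)^[s] (T^[n] x) = T^[n - s] x := by
  obtain ⟨k, rfl⟩ := Nat.exists_eq_add_of_le h
  rw [Nat.add_sub_cancel_left]
  induction s generalizing k with
  | zero => simp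
  | succ s ih =>
    rw [Function.iterate_succ_apply, show s + 1 + k = (s + k) + 1 by ring,
      Function.iterate_succ_apply' T, Homeomorph.symm_apply_apply]
    exact ih k (Nat.le_add_right _ _)

lemma cont_iter_symm (s : ℕ) : Continuous ((T.symm)^[s]) := T.symm.continuous.iterate s

/-- Let `m` be `Δ*`-recurrent for the homeomorphism `T`, `G` continuous, `ε > 0` and let `z` be in the
closure of the orbit of `m`. Then for some `δ > 0`, `G (T^{-s} z)` is close to `G m` whenever
`T^s m` is `δ`-close to `z`. -/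
lemma exists_delta {m : X} (hm : DeltaStarRecurrent T m) {G : X → ℝ} (hG : Continuous G) {ε : ℝ}
    (hε : 0 < ε) (hGm : G m = 0) (z : X) :
    ∃ k : ℕ, ∀ s : ℕ, dist (T^[s] m) z < 1 / ((k : ℝ) + 1) → G ((T.symm)^[s] z) ≤ ε := by
  classical
  by_contra hcon
  push Not at hcon
  choose s hs1 hs2 using hcon
  -- case 1: `T^(s k) m = z` for some `k`
  by_cases hz : ∃ t : ℕ, ε < G ((T.symm)^[t] z) ∧ T^[t] m = z
  · obtain ⟨t, h1, h2⟩ := hz
    rw [← h2, iterate_symm_iterate T t t le_rfl, Nat.sub_self] at h1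
    simp only [Function.iterate_zero, id_eq, hGm] at h1
    exact absurd h1 (not_lt.2 hε.le)
  push Not at hz
  obtain ⟨f, hf1, hf⟩ := exists_seq_of_forall_finset_exists
    (fun a : ℕ => ε < G ((T.symm)^[a] z))
    (fun a b : ℕ => a < b ∧ ε < G (T^[b - a] m)) (by
      intro F hF
      -- neighbourhood of `z`
      have h1 : ∀ᶠ w in 𝓝 z, ∀ a ∈ F, ε < G ((T.symm)^[a] w) := by
        rw [Filter.eventually_all_finset]
        intro a ha
        exact (hG.comp (cont_iter_symm T a)).continuousAt.eventually (lt_mem_nhds (hF a ha))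
      have h2 : ∀ᶠ w in 𝓝 z, ∀ a ∈ Finset.range (F.sup id + 1),
          ε < G ((T.symm)^[a] z) → w ≠ T^[a] m := by
        rw [Filter.eventually_all_finset]
        intro a _
        by_cases ha : ε < G ((T.symm)^[a] z)
        · have h3 : z ≠ T^[a] m := fun h => hz a ha h.symm
          filter_upwards [isOpen_ne.mem_nhds h3] with w hw _
          exact hw
        · exact Eventually.of_forall fun w hw => absurd hw ha
      obtain ⟨ρ, hρ, hball⟩ := Metric.eventually_nhds_iff.1 (h1.and h2)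
      obtain ⟨k, hk⟩ := exists_nat_one_div_lt hρ
      have h4 := hball ((hs1 k).trans hk)
      have hlarge : F.sup id < s k := by
        by_contra hle
        exact h4.2 (s k) (Finset.mem_range.2 (by omega)) (hs2 k) rfl
      refine ⟨s k, hs2 k, fun a ha => ?_⟩
      have h5 : a < s k := lt_of_le_of_lt (Finset.le_sup (f := id) ha) hlarge
      refine ⟨h5, ?_⟩
      have := h4.1 a ha
      rwa [iterate_symm_iterate T _ _ h5.le] at this)
  have hmono : StrictMono f := fun i j hij => (hf i j hij).1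
  have hU : {w | G w < ε} ∈ 𝓝 m := by
    apply (hG.isOpen_preimage _ (isOpen_Iio (a := ε))).mem_nhds
    simpa [hGm] using hε
  obtain ⟨a, ⟨i, rfl⟩, b, ⟨j, rfl⟩, hab, hmem⟩ := hm _ hU (Set.range f)
    (Set.infinite_range_of_injective hmono.injective)
  exact absurd hmem (not_lt.2 (hf i j (hmono.lt_iff_lt.1 hab)).2.le)

variable [CompleteSpace X]

/-- **Baire category**: there is an open set `U` which meets the orbit of `m`, such that for all
return times `s ≤ n` of `m` to `U` the value of `G` at `T^(n - s) m` is at most `ε`. -/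
theorem exists_open {m : X} (hm : DeltaStarRecurrent T m) {G : X → ℝ} (hG : Continuous G) {ε : ℝ}
    (hε : 0 < ε) (hGm : G m = 0) :
    ∃ U : Set X, IsOpen U ∧ (∃ n₀ : ℕ, T^[n₀] m ∈ U) ∧
      ∀ n s : ℕ, s ≤ n → T^[n] m ∈ U → T^[s] m ∈ U → G (T^[n - s] m) ≤ ε := by
  classical
  set O : Set X := closure (Set.range fun n : ℕ => T^[n] m) with hO
  have hcO : IsClosed O := isClosed_closure
  have : CompleteSpace O := hcO.completeSpace_coe
  have : Nonempty O := ⟨⟨m, subset_closure ⟨0, rfl⟩⟩⟩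
  let A : ℕ → Set O := fun k => {z | ∀ s : ℕ, dist (T^[s] m) (z : X) < 1 / ((k : ℝ) + 1) →
    G ((T.symm)^[s] (z : X)) ≤ ε}
  have hAc : ∀ k, IsClosed (A k) := by
    intro k
    have : A k = ⋂ s : ℕ, ({z : O | 1 / ((k : ℝ) + 1) ≤ dist (T^[s] m) (z : X)} ∪
        {z : O | G ((T.symm)^[s] (z : X)) ≤ ε}) := by
      ext z
      simp only [A, Set.mem_ofPred_eq, Set.mem_iInter, Set.mem_union]
      refine forall_congr' fun s => ?_
      rw [imp_iff_not_or, not_lt]
    rw [this]
    refine isClosed_iInter fun s => IsClosed.union ?_ ?_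
    · exact isClosed_le continuous_const (continuous_const.dist continuous_subtype_val)
    · exact isClosed_le ((hG.comp (cont_iter_symm T s)).comp continuous_subtype_val)
        continuous_const
  have hcov : ⋃ k, A k = Set.univ := by
    rw [Set.eq_univ_iff_forall]
    intro z
    obtain ⟨k, hk⟩ := exists_delta T hm hG hε hGm (z : X)
    exact Set.mem_iUnion.2 ⟨k, hk⟩
  obtain ⟨k, z₀, hz₀⟩ := nonempty_interior_of_iUnion_of_closed hAc hcov
  obtain ⟨ρ, hρ, hball⟩ := Metric.isOpen_iff.1 isOpen_interior z₀ hz₀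
  set η : ℝ := min ρ (1 / (2 * ((k : ℝ) + 1))) with hη
  have hη0 : 0 < η := lt_min hρ (by positivity)
  refine ⟨Metric.ball (z₀ : X) η, Metric.isOpen_ball, ?_, ?_⟩
  · have hz : (z₀ : X) ∈ closure (Set.range fun n : ℕ => T^[n] m) := z₀.2
    obtain ⟨_, ⟨n, rfl⟩, hn⟩ := Metric.mem_closure_iff.1 hz η hη0
    exact ⟨n, by rw [Metric.mem_ball, dist_comm]; exact hn⟩
  · intro n s hsn hn hs
    have hnO : T^[n] m ∈ O := subset_closure ⟨n, rfl⟩
    have h1 : (⟨T^[n] m, hnO⟩ : O) ∈ A k := by
      apply interior_subset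
      apply hball
      rw [Metric.mem_ball, Subtype.dist_eq]
      exact lt_of_lt_of_le (Metric.mem_ball.1 hn) (min_le_left _ _)
    have h2 : dist (T^[s] m) (T^[n] m) < 1 / ((k : ℝ) + 1) := by
      calc dist (T^[s] m) (T^[n] m) ≤ dist (T^[s] m) z₀ + dist (T^[n] m) z₀ :=
            dist_triangle_right _ _ _
        _ < η + η := add_lt_add (Metric.mem_ball.1 hs) (Metric.mem_ball.1 hn)
        _ ≤ 1 / (2 * ((k : ℝ) + 1)) + 1 / (2 * ((k : ℝ) + 1)) := by
            gcongr <;> exact min_le_right _ _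
        _ = 1 / ((k : ℝ) + 1) := by field_simp; norm_num
    have h3 := h1 s h2
    simpa only [iterate_symm_iterate T n s hsn] using h3

end

/-- The form used later: `E` is syndetic, and `‖G (T^(n-s) m) - G m‖ ≤ ε` for all `s ≤ n` in `E`. -/
theorem exists_syndetic {X : Type*} [MetricSpace X] [CompleteSpace X] (T : X ≃ₜ X) {m : X}
    (hm : DeltaStarRecurrent T m) {G : X → ℂ} (hG : Continuous G) {ε : ℝ} (hε : 0 < ε) :
    ∃ E : Set ℕ, Syndetic E ∧ ∀ n ∈ E, ∀ s ∈ E, s ≤ n → ‖G (T^[n - s] m) - G m‖ ≤ ε := by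
  obtain ⟨U, hU, ⟨n₀, hn₀⟩, h⟩ := exists_open T hm (G := fun x => ‖G x - G m‖)
    (hG.sub continuous_const).norm hε (by simp)
  refine ⟨{n | T^[n] m ∈ U}, ?_, fun n hn s hs hsn => h n s hsn hn hs⟩
  have hV : (T^[n₀]) ⁻¹' U ∈ 𝓝 m :=
    (hU.preimage (T.continuous.iterate n₀)).mem_nhds hn₀
  obtain ⟨L, hL⟩ := (hm _ hV).syndetic
  refine ⟨L + n₀, fun n => ?_⟩
  obtain ⟨a, ha, h1, h2⟩ := hL n
  refine ⟨n₀ + a, ?_, by omega, by omega⟩
  simp only [Set.mem_ofPred_eq, Set.mem_preimage] at ha ⊢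
  rwa [Function.iterate_add_apply]

end Pool.Agent.Seat74.URD
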