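import Pool.Agent.Seat74.URD.Defs

/-!
# Combinatorics of return times
-/

set_option autoImplicit false

open Filter Topology

namespace Pool.Agent.Seat74.URD

lemma Syndetic.mono {A B : Set ℕ} (h : Syndetic A) (hAB : A ⊆ B) : Syndetic B := by
  obtain ⟨L, hL⟩ := h
  refine ⟨L, fun n => ?_⟩
  obtain ⟨a, ha, h1, h2⟩ := hL n
  exact ⟨a, hAB ha, h1, h2⟩

/-- `Δ*` sets are syndetic. -/
lemma DeltaStar.syndetic {A : Set ℕ} (h : DeltaStar A) : Syndetic A := by
  classical
  by_contra hA
  simp only [Syndetic, not_exists, not_forall] at hA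
  obtain ⟨f, -, hf⟩ := exists_seq_of_forall_finset_exists (fun _ : ℕ => True)
    (fun a b : ℕ => a < b ∧ b - a ∉ A) (by
      intro s _
      obtain ⟨n, hn⟩ := hA (s.sup id + 1)
      refine ⟨n + s.sup id + 1, trivial, fun a ha => ?_⟩
      have h1 : a ≤ s.sup id := Finset.le_sup (f := id) ha
      refine ⟨by omega, fun hmem => hn _ ⟨hmem, by omega, by omega⟩⟩)
  have hmono : StrictMono f := fun m n hmn => (hf m n hmn).1
  obtain ⟨a, ⟨i, rfl⟩, b, ⟨j, rfl⟩, hab, hmem⟩ := h (Set.range f)
    (Set.infinite_range_of_injective hmono.injective)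
  exact (hf i j (hmono.lt_iff_lt.1 hab)).2 hmem

/-- `IP*` sets are syndetic. -/
lemma IPStar.syndetic {A : Set ℕ} (h : IPStar A) : Syndetic A := by
  classical
  by_contra hA
  simp only [Syndetic, not_exists, not_forall] at hA
  have hg : ∀ L : ℕ, ∃ M : ℕ, 0 < M ∧ ∀ m, M ≤ m → m ≤ M + L → m ∉ A := by
    intro L
    obtain ⟨n, hn⟩ := hA (L + 1)
    exact ⟨n + 1, by omega, fun m h1 h2 hm => hn m ⟨hm, by omega, by omega⟩⟩
  choose g hg0 hg using hg
  let s : ℕ → ℕ := fun k => Nat.rec 0 (fun _ t => t + g t) k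
  have hs : ∀ k, s (k + 1) = s k + g (s k) := fun k => rfl
  have hsum : ∀ k, ∑ i ∈ Finset.range k, g (s i) = s k := by
    intro k
    induction k with
    | zero => rfl
    | succ k ih => rw [Finset.sum_range_succ, ih, hs]
  obtain ⟨F, hF, hmem⟩ := h (fun k => g (s k)) (fun k => hg0 _)
  have hm := F.max'_mem hF
  set k := F.max' hF with hk
  have h1 : ∑ i ∈ F, g (s i) = g (s k) + ∑ i ∈ F.erase k, g (s i) := by
    rw [Finset.add_sum_erase F (fun i => g (s i)) hm]
  have h2 : ∑ i ∈ F.erase k, g (s i) ≤ s k := by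
    rw [← hsum k]
    apply Finset.sum_le_sum_of_subset
    intro i hi
    rw [Finset.mem_range]
    have h3 := F.le_max' i (Finset.mem_of_mem_erase hi)
    exact lt_of_le_of_ne h3 (Finset.ne_of_mem_erase hi)
  exact hg (s k) _ (by omega) (by omega) hmem

lemma mem_FS {a : Stream' ℕ} {m : ℕ} (h : m ∈ Hindman.FS a) :
    ∃ F : Finset ℕ, F.Nonempty ∧ ∑ k ∈ F, a.get k = m := by
  classical
  induction h with
  | head' a => exact ⟨{0}, by simp, by simp [Stream'.head]⟩
  | tail' a m _ ih =>
    obtain ⟨F, hF, h⟩ := ih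
    refine ⟨F.map ⟨Nat.succ, Nat.succ_injective⟩, by simpa using hF, ?_⟩
    rw [← h, Finset.sum_map]
    rfl
  | cons' a m _ ih =>
    obtain ⟨F, hF, h⟩ := ih
    refine ⟨insert 0 (F.map ⟨Nat.succ, Nat.succ_injective⟩), by simp, ?_⟩
    rw [Finset.sum_insert (by simp), ← h, Finset.sum_map]
    rfl

attribute [local instance] Ultrafilter.add

/-- A set which belongs to all idempotent ultrafilters is `IP*`. -/
lemma ipStar_of_forall {A : Set ℕ} (h : ∀ p : Ultrafilter ℕ, p + p = p → A ∈ p) : IPStar A := by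
  intro s hs
  obtain ⟨p, hp, hFS⟩ := Hindman.exists_idempotent_ultrafilter_le_FS (Stream'.corec s Nat.succ 0)
  obtain ⟨m, hm1, hm2⟩ := (hFS.and (h p hp)).exists
  obtain ⟨F, hF, hsum⟩ := mem_FS hm1
  refine ⟨F, hF, ?_⟩
  have hget : ∀ k, (Stream'.corec s Nat.succ 0).get k = s k := by
    intro k
    have : ∀ j k, (Stream'.corec s Nat.succ j).get k = s (j + k) := by
      intro j k
      induction k generalizing j with
      | zero => rfl
      | succ k ih =>
        rw [Stream'.corec_eq, Stream'.get_succ]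
        simp only [Stream'.tail_cons]
        rw [ih]
        congr 1
        omega
    simpa using this 0 k
  simp only [hget] at hsum
  rw [hsum]
  exact hm2

/-- Limits along an idempotent ultrafilter in a compact group: if `g (m + n) = g m + g n + c m n` and
`c m n → 0` for all `m`, then `g n → 0`. -/
lemma tendsto_zero_of_idem {G : Type*} [AddCommGroup G] [TopologicalSpace G] [ContinuousAdd G]
    [T2Space G] [CompactSpace G] {p : Ultrafilter ℕ} (hp : p + p = p) (g : ℕ → G) (c : ℕ → ℕ → G)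
    (h : ∀ m n, g (m + n) = g m + g n + c m n) (hc : ∀ m, Tendsto (c m) p (𝓝 0)) :
    Tendsto g p (𝓝 0) := by
  obtain ⟨l, hl⟩ : ∃ l, Tendsto g p (𝓝 l) := by
    obtain ⟨l, -, hl⟩ := isCompact_univ.ultrafilter_le_nhds (p.map g) (by simp)
    exact ⟨l, hl⟩
  have h1 : ∀ m, Tendsto (fun n => g (m + n)) p (𝓝 (g m + l)) := by
    intro m
    have := ((tendsto_const_nhds (x := g m)).add hl).add (hc m)
    rw [add_zero] at this
    exact this.congr (fun n => (h m n).symm)
  have h2 : Tendsto (fun m => g m + l) p (𝓝 (l + l)) := hl.add tendsto_const_nhds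
  have h3 : Tendsto (fun m => g m + l) p (𝓝 l) := by
    rw [(closed_nhds_basis l).tendsto_right_iff]
    rintro V ⟨hV, hVc⟩
    have h5 : ∀ᶠ n in (p + p : Ultrafilter ℕ), g n ∈ V := by
      rw [hp]
      exact hl.eventually_mem hV
    rw [Ultrafilter.eventually_add] at h5
    filter_upwards [h5] with m hm
    exact hVc.mem_of_tendsto (h1 m) hm
  have h4 : l + l = l := tendsto_nhds_unique h2 h3
  have h5 : l = 0 := by simpa using h4
  rwa [h5] at hl

end Pool.Agent.Seat74.URD
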