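import Mathlib

/-!
# Recurrence of vectors under linear operators: definitions
-/

set_option autoImplicit false

open Filter Topology

namespace Pool.Agent.Seat74.URD

/-- `A` is syndetic: it has bounded gaps. -/
def Syndetic (A : Set ℕ) : Prop := ∃ L : ℕ, ∀ n : ℕ, ∃ a ∈ A, n ≤ a ∧ a ≤ n + L

/-- `A` is an `IP*` set: it meets the set of all finite sums of every sequence `(s k)` of positive
integers. -/
def IPStar (A : Set ℕ) : Prop :=
  ∀ s : ℕ → ℕ, (∀ k, 0 < s k) → ∃ F : Finset ℕ, F.Nonempty ∧ ∑ k ∈ F, s k ∈ A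

/-- `A` is a `Δ*` set: it meets the set `{b - a : a, b ∈ B, a < b}` for every infinite set `B`. -/
def DeltaStar (A : Set ℕ) : Prop :=
  ∀ B : Set ℕ, B.Infinite → ∃ a ∈ B, ∃ b ∈ B, a < b ∧ b - a ∈ A

/-- The vector `x` is uniformly recurrent for `T`: `N(x, U) = {n : T^n x ∈ U}` is syndetic for every
neighbourhood `U` of `x`. -/
def UniformlyRecurrent {X : Type*} [TopologicalSpace X] (T : X → X) (x : X) : Prop :=
  ∀ U ∈ 𝓝 x, Syndetic {n : ℕ | T^[n] x ∈ U}

/-- The vector `x` is `IP*`-recurrent for `T`. -/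
def IPStarRecurrent {X : Type*} [TopologicalSpace X] (T : X → X) (x : X) : Prop :=
  ∀ U ∈ 𝓝 x, IPStar {n : ℕ | T^[n] x ∈ U}

/-- The vector `x` is `Δ*`-recurrent for `T`. -/
def DeltaStarRecurrent {X : Type*} [TopologicalSpace X] (T : X → X) (x : X) : Prop :=
  ∀ U ∈ 𝓝 x, DeltaStar {n : ℕ | T^[n] x ∈ U}

end Pool.Agent.Seat74.URD
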