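import Pool.Agent.Seat74.URD.Space

/-!
# The bilinear estimate
-/

set_option autoImplicit false

open Filter Topology Real

namespace Pool.Agent.Seat74.URD

/-- `∑_{n < N} ‖∑_{s ∈ A} v_s ee (- n s √2)‖² ≤ K N + 2 K³` -/
lemma sum_sq_le (K N : ℕ) (A : Finset ℕ) (hA : A ⊆ Finset.range K) (v : ℕ → ℂ)
    (hv : ∀ s, ‖v s‖ ≤ 1) :
    ∑ n ∈ Finset.range N, ‖∑ s ∈ A, v s * ee (-((n : ℝ) * s * √2))‖ ^ 2 ≤
      (K : ℝ) * N + 2 * K ^ 3 := by
  classical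
  have h1 : ∀ n : ℕ, ((‖∑ s ∈ A, v s * ee (-((n : ℝ) * s * √2))‖ ^ 2 : ℝ) : ℂ) =
      ∑ s ∈ A, ∑ t ∈ A, v s * (starRingEnd ℂ) (v t) *
        ee (-((n : ℝ) * ((s : ℝ) - t) * √2)) := by
    intro n
    rw [← Complex.normSq_eq_norm_sq, ← Complex.mul_conj, map_sum, Finset.sum_mul_sum]
    apply Finset.sum_congr rfl
    intro s _
    apply Finset.sum_congr rfl
    intro t _
    rw [map_mul, ← ee_neg]
    have : ee (-((n : ℝ) * ((s : ℝ) - t) * √2)) =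
        ee (-((n : ℝ) * s * √2)) * ee (- -((n : ℝ) * t * √2)) := by
      rw [← ee_add]
      congr 1
      ring
    rw [this]
    ring
  have h2 : ((∑ n ∈ Finset.range N, ‖∑ s ∈ A, v s * ee (-((n : ℝ) * s * √2))‖ ^ 2 : ℝ) : ℂ) =
      ∑ s ∈ A, ∑ t ∈ A, v s * (starRingEnd ℂ) (v t) *
        ∑ n ∈ Finset.range N, ee (-((n : ℝ) * ((s : ℝ) - t) * √2)) := by
    rw [Complex.ofReal_sum]
    simp only [h1, Finset.mul_sum]
    rw [Finset.sum_comm]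
    apply Finset.sum_congr rfl
    intro s _
    rw [Finset.sum_comm]
  have h3 : ∑ n ∈ Finset.range N, ‖∑ s ∈ A, v s * ee (-((n : ℝ) * s * √2))‖ ^ 2 ≤
      ‖∑ s ∈ A, ∑ t ∈ A, v s * (starRingEnd ℂ) (v t) *
        ∑ n ∈ Finset.range N, ee (-((n : ℝ) * ((s : ℝ) - t) * √2))‖ := by
    rw [← h2, Complex.norm_real]
    exact le_abs_self _
  refine h3.trans ?_
  have hterm : ∀ s ∈ A, ∀ t ∈ A, ‖v s * (starRingEnd ℂ) (v t) *
        ∑ n ∈ Finset.range N, ee (-((n : ℝ) * ((s : ℝ) - t) * √2))‖ ≤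
      (if s = t then (N : ℝ) else 0) + 2 * K := by
    intro s hs t ht
    rw [norm_mul, norm_mul, RCLike.norm_conj]
    have h4 : ‖v s‖ * ‖v t‖ ≤ 1 := by
      have := mul_le_mul (hv s) (hv t) (norm_nonneg _) (by norm_num)
      linarith
    have h5 : ‖∑ n ∈ Finset.range N, ee (-((n : ℝ) * ((s : ℝ) - t) * √2))‖ ≤
        (if s = t then (N : ℝ) else 0) + 2 * K := by
      by_cases hst : s = t
      · subst hst
        simp only [sub_self, mul_zero, zero_mul, neg_zero, ee_zero, Finset.sum_const,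
          Finset.card_range, nsmul_eq_mul, mul_one, if_true]
        rw [RCLike.norm_natCast]
        have : (0 : ℝ) ≤ 2 * K := by positivity
        linarith
      · rw [if_neg hst, zero_add]
        exact norm_geom N s t K (Finset.mem_range.1 (hA hs)) (Finset.mem_range.1 (hA ht)) hst
    calc ‖v s‖ * ‖v t‖ * ‖∑ n ∈ Finset.range N, ee (-((n : ℝ) * ((s : ℝ) - t) * √2))‖
        ≤ 1 * ((if s = t then (N : ℝ) else 0) + 2 * K) := by
          gcongr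
      _ = (if s = t then (N : ℝ) else 0) + 2 * K := one_mul _
  have hcard : (A.card : ℝ) ≤ K := by
    have := Finset.card_le_card hA
    rw [Finset.card_range] at this
    exact_mod_cast this
  calc ‖∑ s ∈ A, ∑ t ∈ A, v s * (starRingEnd ℂ) (v t) *
        ∑ n ∈ Finset.range N, ee (-((n : ℝ) * ((s : ℝ) - t) * √2))‖
      ≤ ∑ s ∈ A, ∑ t ∈ A, ((if s = t then (N : ℝ) else 0) + 2 * K) := by
        refine (norm_sum_le _ _).trans (Finset.sum_le_sum fun s hs => ?_)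
        exact (norm_sum_le _ _).trans (Finset.sum_le_sum fun t ht => hterm s hs t ht)
    _ = A.card * N + A.card * (A.card * (2 * K)) := by
        simp only [Finset.sum_add_distrib, Finset.sum_ite_eq, Finset.sum_const, nsmul_eq_mul]
        congr 1
        rw [Finset.sum_ite_mem, Finset.inter_self, Finset.sum_const, nsmul_eq_mul]
    _ ≤ K * N + K * (K * (2 * K)) := by gcongr
    _ = (K : ℝ) * N + 2 * K ^ 3 := by ring

/-- The bilinear estimate. -/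
lemma bilinear (K N : ℕ) (A B : Finset ℕ) (hA : A ⊆ Finset.range K) (hB : B ⊆ Finset.range N)
    (u v : ℕ → ℂ) (hu : ∀ n, ‖u n‖ ≤ 1) (hv : ∀ s, ‖v s‖ ≤ 1) :
    ‖∑ n ∈ B, ∑ s ∈ A, u n * v s * ee (-((n : ℝ) * s * √2))‖ ^ 2 ≤
      N * ((K : ℝ) * N + 2 * K ^ 3) := by
  have h1 : ‖∑ n ∈ B, ∑ s ∈ A, u n * v s * ee (-((n : ℝ) * s * √2))‖ ≤
      ∑ n ∈ Finset.range N, ‖∑ s ∈ A, v s * ee (-((n : ℝ) * s * √2))‖ := by
    calc ‖∑ n ∈ B, ∑ s ∈ A, u n * v s * ee (-((n : ℝ) * s * √2))‖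
        ≤ ∑ n ∈ B, ‖∑ s ∈ A, v s * ee (-((n : ℝ) * s * √2))‖ := by
          refine (norm_sum_le _ _).trans (Finset.sum_le_sum fun n _ => ?_)
          have : ∑ s ∈ A, u n * v s * ee (-((n : ℝ) * s * √2)) =
              u n * ∑ s ∈ A, v s * ee (-((n : ℝ) * s * √2)) := by
            rw [Finset.mul_sum]
            apply Finset.sum_congr rfl
            intro s _
            ring
          rw [this, norm_mul]
          have h0 := norm_nonneg (∑ s ∈ A, v s * ee (-((n : ℝ) * s * √2)))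
          have := hu n
          nlinarith
      _ ≤ ∑ n ∈ Finset.range N, ‖∑ s ∈ A, v s * ee (-((n : ℝ) * s * √2))‖ :=
          Finset.sum_le_sum_of_subset_of_nonneg hB (fun _ _ _ => norm_nonneg _)
  have h2 : (∑ n ∈ Finset.range N, ‖∑ s ∈ A, v s * ee (-((n : ℝ) * s * √2))‖) ^ 2 ≤
      N * ∑ n ∈ Finset.range N, ‖∑ s ∈ A, v s * ee (-((n : ℝ) * s * √2))‖ ^ 2 := by
    have := sq_sum_le_card_mul_sum_sq (s := Finset.range N)
      (f := fun n : ℕ => ‖∑ s ∈ A, v s * ee (-((n : ℝ) * s * √2))‖)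
    simpa using this
  calc ‖∑ n ∈ B, ∑ s ∈ A, u n * v s * ee (-((n : ℝ) * s * √2))‖ ^ 2
      ≤ (∑ n ∈ Finset.range N, ‖∑ s ∈ A, v s * ee (-((n : ℝ) * s * √2))‖) ^ 2 := by gcongr
    _ ≤ N * ∑ n ∈ Finset.range N, ‖∑ s ∈ A, v s * ee (-((n : ℝ) * s * √2))‖ ^ 2 := h2
    _ ≤ N * ((K : ℝ) * N + 2 * K ^ 3) := by
        gcongr
        exact sum_sq_le K N A hA v hv

/-- normalising constant of the characters -/
noncomputable def cj (j : ℤ) : ℝ := 8 * (|(j : ℝ)| + 1)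

lemma cj_pos (j : ℤ) : 0 < cj j := by unfold cj; positivity

lemma cj_ge (j : ℤ) : 8 ≤ cj j := by
  unfold cj
  have := abs_nonneg (j : ℝ)
  linarith

/-- the normalised character -/
noncomputable def gfun (j : ℤ) (x : ℝ) : ℂ := ((cj j)⁻¹ : ℝ) * ee (j * x)

lemma gfun_TF (j : ℤ) : gfun j ∈ TF := by
  have hc := cj_pos j
  have hn : ‖(((cj j)⁻¹ : ℝ) : ℂ)‖ = (cj j)⁻¹ := by
    rw [Complex.norm_real, Real.norm_of_nonneg (inv_pos.2 hc).le]
  refine ⟨?_, fun x => ?_, fun x y => ?_⟩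
  · exact Submodule.smul_mem Trig (((cj j)⁻¹ : ℝ) : ℂ) (Submodule.subset_span ⟨j, rfl⟩)
  · rw [gfun, norm_mul, norm_ee, mul_one, hn]
    exact inv_le_one_of_one_le₀ (by linarith [cj_ge j])
  · rw [gfun, gfun, ← mul_sub, norm_mul, hn]
    have h1 := ee_om (j : ℝ) x y
    have h2 := om_nonneg (x - y)
    rw [inv_mul_le_iff₀ hc]
    refine h1.trans ?_
    gcongr
    unfold cj
    have := abs_nonneg (j : ℝ)
    linarith

/-- the sum -/
noncomputable def RR (A B : Finset ℕ) (j : ℤ) (x : ℝ) : ℂ :=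
  ∑ n ∈ B, ∑ s ∈ A, ee (((n : ℝ) - s) * x + ((n : ℝ) - s) ^ 2 * √2 / 2) *
    gfun j (x + ((n : ℝ) - s) * √2)

lemma RR_term (j : ℤ) (x : ℝ) (n s : ℕ) :
    ee (((n : ℝ) - s) * x + ((n : ℝ) - s) ^ 2 * √2 / 2) * gfun j (x + ((n : ℝ) - s) * √2) =
      ee ((n : ℝ) * x + (n : ℝ) ^ 2 * √2 / 2 + j * n * √2) *
        (((cj j)⁻¹ : ℝ) * ee (-(s * x) + (s : ℝ) ^ 2 * √2 / 2 - j * s * √2 + j * x)) *
          ee (-((n : ℝ) * s * √2)) := by
  have h : ee (((n : ℝ) - s) * x + ((n : ℝ) - s) ^ 2 * √2 / 2) *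
      ee (j * (x + ((n : ℝ) - s) * √2)) =
      ee ((n : ℝ) * x + (n : ℝ) ^ 2 * √2 / 2 + j * n * √2) *
        ee (-(s * x) + (s : ℝ) ^ 2 * √2 / 2 - j * s * √2 + j * x) * ee (-((n : ℝ) * s * √2)) := by
    rw [← ee_add, ← ee_add, ← ee_add]
    congr 1
    ring
  rw [gfun]
  calc ee (((n : ℝ) - s) * x + ((n : ℝ) - s) ^ 2 * √2 / 2) *
        (((cj j)⁻¹ : ℝ) * ee (j * (x + ((n : ℝ) - s) * √2)))
      = ((cj j)⁻¹ : ℝ) * (ee (((n : ℝ) - s) * x + ((n : ℝ) - s) ^ 2 * √2 / 2) *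
        ee (j * (x + ((n : ℝ) - s) * √2))) := by ring
    _ = _ := by rw [h]; ring

/-- the same term as a character in `x` -/
lemma RR_term' (j : ℤ) (x : ℝ) (n s : ℕ) :
    ee (((n : ℝ) - s) * x + ((n : ℝ) - s) ^ 2 * √2 / 2) * gfun j (x + ((n : ℝ) - s) * √2) =
      (((cj j)⁻¹ : ℝ) * ee (((n : ℝ) - s) ^ 2 * √2 / 2 + j * ((n : ℝ) - s) * √2)) *
        ee ((((n : ℤ) - s + j : ℤ) : ℝ) * x) := by
  rw [gfun]
  have h : ee (((n : ℝ) - s) * x + ((n : ℝ) - s) ^ 2 * √2 / 2) *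
      ee (j * (x + ((n : ℝ) - s) * √2)) =
      ee (((n : ℝ) - s) ^ 2 * √2 / 2 + j * ((n : ℝ) - s) * √2) *
        ee ((((n : ℤ) - s + j : ℤ) : ℝ) * x) := by
    rw [← ee_add, ← ee_add]
    congr 1
    push_cast
    ring
  calc ee (((n : ℝ) - s) * x + ((n : ℝ) - s) ^ 2 * √2 / 2) *
        (((cj j)⁻¹ : ℝ) * ee (j * (x + ((n : ℝ) - s) * √2)))
      = ((cj j)⁻¹ : ℝ) * (ee (((n : ℝ) - s) * x + ((n : ℝ) - s) ^ 2 * √2 / 2) *
        ee (j * (x + ((n : ℝ) - s) * √2))) := by ring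
    _ = _ := by rw [h]; ring

lemma RR_trig (A B : Finset ℕ) (j : ℤ) : RR A B j ∈ Trig := by
  have h : RR A B j = ∑ n ∈ B, ∑ s ∈ A,
      ((((cj j)⁻¹ : ℝ) * ee (((n : ℝ) - s) ^ 2 * √2 / 2 + j * ((n : ℝ) - s) * √2) : ℂ) •
        fun x : ℝ => ee ((((n : ℤ) - s + j : ℤ) : ℝ) * x)) := by
    ext x
    rw [Finset.sum_apply]
    simp only [Finset.sum_apply, Pi.smul_apply, smul_eq_mul]
    unfold RR
    simp only [RR_term']
  rw [h]
  exact Submodule.sum_mem _ fun n _ => Submodule.sum_mem _ fun s _ =>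
    Submodule.smul_mem _ _ (Submodule.subset_span ⟨_, rfl⟩)

variable {k : ℕ}

lemma RR_bound (hk : 1 ≤ k) (A B : Finset ℕ) (hA : A ⊆ Finset.range (k ^ 16))
    (hB : B ⊆ Finset.range (k ^ 32)) (j : ℤ) (x : ℝ) : ‖RR A B j x‖ ≤ 2 * (k : ℝ) ^ 40 := by
  have hk' : (1 : ℝ) ≤ k := by exact_mod_cast hk
  have hc := cj_pos j
  have h := bilinear (k ^ 16) (k ^ 32) A B hA hB
    (fun n => ee ((n : ℝ) * x + (n : ℝ) ^ 2 * √2 / 2 + j * n * √2))
    (fun s => ((cj j)⁻¹ : ℝ) * ee (-(s * x) + (s : ℝ) ^ 2 * √2 / 2 - j * s * √2 + j * x))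
    (fun n => (norm_ee _).le) (fun s => by
      rw [norm_mul, norm_ee, mul_one, Complex.norm_real, Real.norm_of_nonneg (inv_pos.2 hc).le]
      exact inv_le_one_of_one_le₀ (by linarith [cj_ge j]))
  have h1 : RR A B j x = ∑ n ∈ B, ∑ s ∈ A,
      ee ((n : ℝ) * x + (n : ℝ) ^ 2 * √2 / 2 + j * n * √2) *
        (((cj j)⁻¹ : ℝ) * ee (-(s * x) + (s : ℝ) ^ 2 * √2 / 2 - j * s * √2 + j * x)) *
          ee (-((n : ℝ) * s * √2)) := by
    unfold RR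
    simp only [RR_term]
  rw [← h1] at h
  apply le_of_pow_le_pow_left₀ (n := 2) (by norm_num) (by positivity)
  refine h.trans ?_
  push_cast
  have e : (k : ℝ) ^ 32 * ((k : ℝ) ^ 16 * (k : ℝ) ^ 32 + 2 * ((k : ℝ) ^ 16) ^ 3) = 3 * (k : ℝ) ^ 80 := by
    ring
  rw [e, mul_pow, ← pow_mul]
  have : (0 : ℝ) ≤ (k : ℝ) ^ 80 := by positivity
  norm_num
  linarith

lemma RR_lip (hk : 1 ≤ k) (A B : Finset ℕ) (hA : A ⊆ Finset.range (k ^ 16))
    (hB : B ⊆ Finset.range (k ^ 32)) (hAB : ∀ n ∈ B, ∀ s ∈ A, s ≤ n) (j : ℤ) (x y : ℝ) :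
    ‖RR A B j x - RR A B j y‖ ≤ 7 * (k : ℝ) ^ 80 * |x - y| := by
  have hk' : (1 : ℝ) ≤ k := by exact_mod_cast hk
  have hc := cj_pos j
  have hπ : 2 * π ≤ 7 := by have := Real.pi_lt_d2; linarith
  have hk32 : (1 : ℝ) ≤ (k : ℝ) ^ 32 := one_le_pow₀ hk'
  have hterm : ∀ n ∈ B, ∀ s ∈ A,
      ‖ee (((n : ℝ) - s) * x + ((n : ℝ) - s) ^ 2 * √2 / 2) * gfun j (x + ((n : ℝ) - s) * √2) -
        ee (((n : ℝ) - s) * y + ((n : ℝ) - s) ^ 2 * √2 / 2) * gfun j (y + ((n : ℝ) - s) * √2)‖ ≤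
        7 * (k : ℝ) ^ 32 * |x - y| := by
    intro n hn s hs
    rw [RR_term', RR_term', ← mul_sub, norm_mul, norm_mul, norm_ee, mul_one, Complex.norm_real,
      Real.norm_of_nonneg (inv_pos.2 hc).le, inv_mul_le_iff₀ hc]
    refine (ee_lip _ _).trans ?_
    rw [← mul_sub, abs_mul]
    have h1 : |(((n : ℤ) - s + j : ℤ) : ℝ)| ≤ (k : ℝ) ^ 32 + |(j : ℝ)| := by
      push_cast
      refine (abs_add_le _ _).trans ?_
      gcongr
      have h2 : (s : ℝ) ≤ n := by exact_mod_cast hAB n hn s hs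
      have h3 : (n : ℝ) ≤ (k : ℝ) ^ 32 := by
        have := Finset.mem_range.1 (hB hn)
        exact_mod_cast this.le
      rw [abs_of_nonneg (by linarith)]
      have : (0 : ℝ) ≤ s := Nat.cast_nonneg _
      linarith
    have h4 : (k : ℝ) ^ 32 + |(j : ℝ)| ≤ cj j * (k : ℝ) ^ 32 := by
      unfold cj
      have := abs_nonneg (j : ℝ)
      nlinarith
    calc 2 * π * (|(((n : ℤ) - s + j : ℤ) : ℝ)| * |x - y|)
        ≤ 7 * ((cj j * (k : ℝ) ^ 32) * |x - y|) := by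
          gcongr
          exact h1.trans h4
      _ = cj j * (7 * (k : ℝ) ^ 32 * |x - y|) := by ring
  have hcA : (A.card : ℝ) ≤ (k : ℝ) ^ 16 := by
    have := Finset.card_le_card hA
    rw [Finset.card_range] at this
    exact_mod_cast this
  have hcB : (B.card : ℝ) ≤ (k : ℝ) ^ 32 := by
    have := Finset.card_le_card hB
    rw [Finset.card_range] at this
    exact_mod_cast this
  unfold RR
  rw [← Finset.sum_sub_distrib]
  calc ‖∑ n ∈ B, ((∑ s ∈ A, ee (((n : ℝ) - s) * x + ((n : ℝ) - s) ^ 2 * √2 / 2) *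
        gfun j (x + ((n : ℝ) - s) * √2)) - ∑ s ∈ A,
        ee (((n : ℝ) - s) * y + ((n : ℝ) - s) ^ 2 * √2 / 2) * gfun j (y + ((n : ℝ) - s) * √2))‖
      ≤ ∑ n ∈ B, ∑ s ∈ A, 7 * (k : ℝ) ^ 32 * |x - y| := by
        refine (norm_sum_le _ _).trans (Finset.sum_le_sum fun n hn => ?_)
        rw [← Finset.sum_sub_distrib]
        exact (norm_sum_le _ _).trans (Finset.sum_le_sum fun s hs => hterm n hn s hs)
    _ = B.card * (A.card * (7 * (k : ℝ) ^ 32 * |x - y|)) := by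
        simp only [Finset.sum_const, nsmul_eq_mul]
    _ ≤ (k : ℝ) ^ 32 * ((k : ℝ) ^ 16 * (7 * (k : ℝ) ^ 32 * |x - y|)) := by gcongr
    _ = 7 * (k : ℝ) ^ 80 * |x - y| := by ring

/-- the normalised sum is a test function -/
lemma RR_TF (hk : 1 ≤ k) (A B : Finset ℕ) (hA : A ⊆ Finset.range (k ^ 16))
    (hB : B ⊆ Finset.range (k ^ 32)) (hAB : ∀ n ∈ B, ∀ s ∈ A, s ≤ n) (j : ℤ) :
    (fun x => ((8 * (k : ℝ) ^ 45)⁻¹ : ℝ) * RR A B j x) ∈ TF := by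
  have hk' : (1 : ℝ) ≤ k := by exact_mod_cast hk
  have hC : (0 : ℝ) < 8 * (k : ℝ) ^ 45 := by positivity
  have hn : ‖(((8 * (k : ℝ) ^ 45)⁻¹ : ℝ) : ℂ)‖ = (8 * (k : ℝ) ^ 45)⁻¹ := by
    rw [Complex.norm_real, Real.norm_of_nonneg (inv_pos.2 hC).le]
  refine ⟨Submodule.smul_mem Trig _ (RR_trig A B j), fun x => ?_, fun x y => ?_⟩
  · rw [norm_mul, hn, inv_mul_le_iff₀ hC, mul_one]
    refine (RR_bound hk A B hA hB j x).trans ?_
    have : (k : ℝ) ^ 40 ≤ (k : ℝ) ^ 45 := pow_le_pow_right₀ hk' (by norm_num)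
    have h0 : (0 : ℝ) ≤ (k : ℝ) ^ 45 := by positivity
    linarith
  · rw [← mul_sub, norm_mul, hn, inv_mul_le_iff₀ hC]
    apply le_om (A := 4 * (k : ℝ) ^ 40) (B := 7 * (k : ℝ) ^ 80) (norm_nonneg _)
    · refine (norm_sub_le _ _).trans ?_
      have h1 := RR_bound hk A B hA hB j x
      have h2 := RR_bound hk A B hA hB j y
      linarith
    · exact RR_lip hk A B hA hB hAB j x y
    · exact hC.le
    · have h0 : (0 : ℝ) ≤ (k : ℝ) ^ 360 := by positivity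
      calc (4 * (k : ℝ) ^ 40) ^ 7 * (7 * (k : ℝ) ^ 80) = 114688 * (k : ℝ) ^ 360 := by ring
        _ ≤ 16777216 * (k : ℝ) ^ 360 := by gcongr; norm_num
        _ = (8 * (k : ℝ) ^ 45) ^ 8 := by ring

end Pool.Agent.Seat74.URD
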