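import Mathlib

/-!
# The character `ee t = exp(2 π i t)` and the modulus `om t = |t|^(1/8)`
-/

set_option autoImplicit false

open Filter Topology Real

namespace Pool.Agent.Seat74.URD

/-- `exp(2 π i t)` -/
noncomputable def ee (t : ℝ) : ℂ := Complex.exp ((2 * π * t : ℝ) * Complex.I)

lemma ee_add (s t : ℝ) : ee (s + t) = ee s * ee t := by
  unfold ee
  rw [← Complex.exp_add]
  congr 1
  push_cast
  ring

lemma ee_zero : ee 0 = 1 := by simp [ee]

lemma norm_ee (t : ℝ) : ‖ee t‖ = 1 := Complex.norm_exp_ofReal_mul_I _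

lemma ee_ne_zero (t : ℝ) : ee t ≠ 0 := Complex.exp_ne_zero _

lemma ee_int (n : ℤ) : ee n = 1 := by
  unfold ee
  rw [Complex.exp_eq_one_iff]
  exact ⟨n, by push_cast; ring⟩

lemma ee_neg (t : ℝ) : ee (-t) = (starRingEnd ℂ) (ee t) := by
  unfold ee
  rw [← Complex.exp_conj, map_mul, Complex.conj_I, Complex.conj_ofReal]
  congr 1
  push_cast
  ring

lemma ee_neg_mul (t : ℝ) : ee (-t) * ee t = 1 := by
  rw [← ee_add, neg_add_cancel, ee_zero]

lemma continuous_ee : Continuous ee := by unfold ee; fun_prop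

lemma norm_ee_sub_one (t : ℝ) : ‖ee t - 1‖ = |2 * Real.sin (π * t)| := by
  have h := Complex.norm_exp_I_mul_ofReal_sub_one (2 * π * t)
  rw [show ee t = Complex.exp (Complex.I * ((2 * π * t : ℝ) : ℂ)) by
    unfold ee; rw [mul_comm]]
  rw [h, Real.norm_eq_abs]
  congr 3
  ring

lemma ee_lip (s t : ℝ) : ‖ee s - ee t‖ ≤ 2 * π * |s - t| := by
  have h : ee s - ee t = ee t * (ee (s - t) - 1) := by
    rw [mul_sub, ← ee_add, mul_one]
    congr 2
    ring
  rw [h, norm_mul, norm_ee, one_mul, norm_ee_sub_one, abs_mul]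
  have h1 : |Real.sin (π * (s - t))| ≤ |π * (s - t)| := Real.abs_sin_le_abs
  rw [abs_mul, abs_of_pos Real.pi_pos] at h1
  rw [abs_of_pos (by norm_num : (0:ℝ) < 2)]
  linarith

lemma ee_sub_le_two (s t : ℝ) : ‖ee s - ee t‖ ≤ 2 := by
  calc ‖ee s - ee t‖ ≤ ‖ee s‖ + ‖ee t‖ := norm_sub_le _ _
    _ = 2 := by rw [norm_ee, norm_ee]; norm_num

/-- `√2` is badly approximable. -/
lemma sqrt_two_approx (h : ℕ) (hh : 1 ≤ h) (p : ℤ) (hp : |(h : ℝ) * √2 - p| ≤ 1 / 2) :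
    1 / (4 * (h : ℝ)) ≤ |(h : ℝ) * √2 - p| := by
  have hh' : (1 : ℝ) ≤ h := by exact_mod_cast hh
  have hs : √2 ^ 2 = 2 := Real.sq_sqrt (by norm_num)
  have hs0 : 0 ≤ √2 := Real.sqrt_nonneg _
  have hs1 : √2 ≤ 3 / 2 := by
    rw [Real.sqrt_le_left (by norm_num)]
    norm_num
  -- `2 h² ≠ p²`
  have hne : (2 * (h : ℤ) ^ 2 - p ^ 2) ≠ 0 := by
    intro h0
    have h1 : ((p : ℝ) / h) ^ 2 = 2 := by
      have : (2 * (h : ℝ) ^ 2 - (p : ℝ) ^ 2) = 0 := by exact_mod_cast h0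
      field_simp
      linarith
    have h2 : √2 = |(p : ℝ) / h| := by
      rw [← h1, Real.sqrt_sq_eq_abs]
    have h3 : Irrational |(p : ℝ) / h| := h2 ▸ irrational_sqrt_two
    apply h3
    refine ⟨|(p : ℚ) / h|, by push_cast; rfl⟩
  have h1 : (1 : ℝ) ≤ |2 * (h : ℝ) ^ 2 - (p : ℝ) ^ 2| := by
    have : (1 : ℤ) ≤ |2 * (h : ℤ) ^ 2 - p ^ 2| := Int.one_le_abs hne
    exact_mod_cast this
  have h2 : 2 * (h : ℝ) ^ 2 - (p : ℝ) ^ 2 = ((h : ℝ) * √2 - p) * ((h : ℝ) * √2 + p) := by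
    have : ((h : ℝ) * √2 - p) * ((h : ℝ) * √2 + p) = (h : ℝ) ^ 2 * √2 ^ 2 - (p : ℝ) ^ 2 := by ring
    rw [this, hs]
    ring
  rw [h2, abs_mul] at h1
  have h3 : |(h : ℝ) * √2 + p| ≤ 4 * h := by
    have e : (h : ℝ) * √2 + p = 2 * (h * √2) - (h * √2 - p) := by ring
    rw [e]
    calc |2 * ((h : ℝ) * √2) - (h * √2 - p)| ≤ |2 * ((h : ℝ) * √2)| + |(h : ℝ) * √2 - p| :=
          abs_sub _ _
      _ ≤ 2 * (h * (3 / 2)) + 1 / 2 := by
          gcongr
          rw [abs_of_nonneg (by positivity)]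
          gcongr
      _ ≤ 4 * h := by linarith
  rw [div_le_iff₀ (by positivity)]
  calc (1 : ℝ) ≤ |(h : ℝ) * √2 - p| * |(h : ℝ) * √2 + p| := h1
    _ ≤ |(h : ℝ) * √2 - p| * (4 * h) := by gcongr

lemma abs_sin_pi_sub_int (t : ℝ) (p : ℤ) : |Real.sin (π * t)| = |Real.sin (π * (t - p))| := by
  have : π * (t - p) = π * t - p * π := by ring
  rw [this, Real.sin_sub_int_mul_pi, abs_mul, abs_zpow]
  simp

/-- `‖ee (h √2) - 1‖ ≥ 1 / h` -/
lemma norm_ee_sqrt_two (h : ℕ) (hh : 1 ≤ h) : 1 / (h : ℝ) ≤ ‖ee (h * √2) - 1‖ := by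
  have hh' : (1 : ℝ) ≤ h := by exact_mod_cast hh
  set p : ℤ := round ((h : ℝ) * √2) with hp
  set r : ℝ := (h : ℝ) * √2 - p with hr
  have hr1 : |r| ≤ 1 / 2 := abs_sub_round _
  have hr2 : 1 / (4 * (h : ℝ)) ≤ |r| := sqrt_two_approx h hh p hr1
  rw [norm_ee_sub_one, abs_mul, abs_of_pos (by norm_num : (0:ℝ) < 2), abs_sin_pi_sub_int _ p, ← hr]
  have h1 : 2 * |r| ≤ |Real.sin (π * r)| := by
    have h2 : |Real.sin (π * r)| = |Real.sin (π * |r|)| := by
      rcases abs_cases r with ⟨h, _⟩ | ⟨h, _⟩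
      · rw [h]
      · rw [h, mul_neg, Real.sin_neg, abs_neg]
    rw [h2]
    have h3 := Real.mul_le_sin (x := π * |r|) (by positivity) (by
      have := Real.pi_pos
      nlinarith)
    have h4 : 2 / π * (π * |r|) = 2 * |r| := by
      field_simp
    rw [h4] at h3
    exact h3.trans (le_abs_self _)
  have h5 : 1 / (h : ℝ) = 4 * (1 / (4 * (h : ℝ))) := by field_simp
  rw [h5]
  linarith

/-- Geometric sums. -/
lemma norm_geom (N : ℕ) (a b K : ℕ) (ha : a < K) (hb : b < K) (hab : a ≠ b) :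
    ‖∑ n ∈ Finset.range N, ee (-((n : ℝ) * ((a : ℝ) - b) * √2))‖ ≤ 2 * K := by
  set z : ℂ := ee (-(((a : ℝ) - b) * √2)) with hz
  have hpow : ∀ n : ℕ, ee (-((n : ℝ) * ((a : ℝ) - b) * √2)) = z ^ n := by
    intro n
    induction n with
    | zero => simp [ee_zero]
    | succ n ih =>
      rw [pow_succ, ← ih, hz, ← ee_add]
      congr 1
      push_cast
      ring
  simp only [hpow]
  -- lower bound of `z - 1`
  have hK : (0 : ℝ) < K := by exact_mod_cast (lt_of_le_of_lt (Nat.zero_le a) ha)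
  have hlow : 1 / (K : ℝ) ≤ ‖z - 1‖ := by
    rcases lt_or_gt_of_ne hab with h | h
    · -- a < b
      have h1 := norm_ee_sqrt_two (b - a) (by omega)
      have h2 : (((b - a : ℕ) : ℝ)) = (b : ℝ) - a := by rw [Nat.cast_sub h.le]
      have h3 : ee (((b - a : ℕ) : ℝ) * √2) = z := by
        rw [hz, h2]
        congr 1
        ring
      rw [h3] at h1
      refine le_trans ?_ h1
      apply one_div_le_one_div_of_le
      · have : 0 < b - a := by omega
        exact_mod_cast this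
      · exact_mod_cast (by omega : b - a ≤ K)
    · have h1 := norm_ee_sqrt_two (a - b) (by omega)
      have h2 : (((a - b : ℕ) : ℝ)) = (a : ℝ) - b := by rw [Nat.cast_sub h.le]
      have h3 : z = (starRingEnd ℂ) (ee (((a - b : ℕ) : ℝ) * √2)) := by
        rw [hz, h2, ← ee_neg]
      have h4 : ‖z - 1‖ = ‖ee (((a - b : ℕ) : ℝ) * √2) - 1‖ := by
        rw [h3, ← RCLike.norm_conj (ee (((a - b : ℕ) : ℝ) * √2) - 1)]
        simp
      rw [h4]
      refine le_trans ?_ h1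
      apply one_div_le_one_div_of_le
      · have : 0 < a - b := by omega
        exact_mod_cast this
      · exact_mod_cast (by omega : a - b ≤ K)
  have hz1 : z ≠ 1 := by
    intro h
    rw [h, sub_self, norm_zero] at hlow
    have : 0 < 1 / (K : ℝ) := by positivity
    linarith
  rw [geom_sum_eq hz1, norm_div]
  have hnum : ‖z ^ N - 1‖ ≤ 2 := by
    calc ‖z ^ N - 1‖ ≤ ‖z ^ N‖ + ‖(1 : ℂ)‖ := norm_sub_le _ _
      _ = 2 := by rw [norm_pow, hz, norm_ee]; norm_num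
  have hpos : 0 < ‖z - 1‖ := norm_pos_iff.2 (sub_ne_zero.2 hz1)
  rw [div_le_iff₀ hpos]
  calc ‖z ^ N - 1‖ ≤ 2 := hnum
    _ = 2 * K * (1 / K) := by field_simp
    _ ≤ 2 * K * ‖z - 1‖ := by gcongr

/-- the modulus of continuity `|t|^(1/8)` -/
noncomputable def om (t : ℝ) : ℝ := |t| ^ (1 / 8 : ℝ)

lemma om_nonneg (t : ℝ) : 0 ≤ om t := Real.rpow_nonneg (abs_nonneg _) _

lemma om_pow (t : ℝ) : om t ^ 8 = |t| := by
  unfold om
  rw [← Real.rpow_natCast, ← Real.rpow_mul (abs_nonneg _)]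
  norm_num

lemma om_zero : om 0 = 0 := by
  unfold om
  rw [abs_zero]
  exact Real.zero_rpow (by norm_num)

lemma continuous_om : Continuous om := by
  unfold om
  exact continuous_abs.rpow_const (fun _ => Or.inr (by norm_num))

/-- if `D ≤ A` and `D ≤ B |t|` then `D ^ 8 ≤ A ^ 7 * B * |t|`. -/
lemma le_om {D A B C t : ℝ} (hD : 0 ≤ D) (h1 : D ≤ A) (h2 : D ≤ B * |t|) (hC : 0 ≤ C)
    (h : A ^ 7 * B ≤ C ^ 8) : D ≤ C * om t := by
  have hA : 0 ≤ A := hD.trans h1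
  apply le_of_pow_le_pow_left₀ (n := 8) (by norm_num) (mul_nonneg hC (om_nonneg _))
  rw [mul_pow, om_pow]
  calc D ^ 8 = D ^ 7 * D := by ring
    _ ≤ A ^ 7 * (B * |t|) := by gcongr
    _ = A ^ 7 * B * |t| := by ring
    _ ≤ C ^ 8 * |t| := by gcongr

end Pool.Agent.Seat74.URD
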