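import Pool.Agent.Seat74.URD.Exp

/-!
# The Banach space `XX` and the operator

`TF`: trigonometric polynomials `f` with `|f| ≤ 1` and `|f x - f y| ≤ |x - y|^(1/8)`; `dl x` is the
point mass at `x`, a bounded function on `TF`; `XX` is the closed span of the point masses; the
operator is `δ_x ↦ ee (x + √2/2) δ_(x + √2)`.
-/

set_option autoImplicit false

open Filter Topology Real

namespace Pool.Agent.Seat74.URD

/-- trigonometric polynomials -/
def Trig : Submodule ℂ (ℝ → ℂ) :=
  Submodule.span ℂ (Set.range fun (j : ℤ) (x : ℝ) => ee (j * x))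

/-- the test functions -/
def TF : Set (ℝ → ℂ) :=
  {f | f ∈ Trig ∧ (∀ x, ‖f x‖ ≤ 1) ∧ ∀ x y, ‖f x - f y‖ ≤ om (x - y)}

lemma trig_periodic {f : ℝ → ℂ} (hf : f ∈ Trig) (x : ℝ) : f (x + 1) = f x := by
  induction hf using Submodule.span_induction with
  | mem f hf =>
    obtain ⟨j, rfl⟩ := hf
    change ee (j * (x + 1)) = ee (j * x)
    rw [mul_add, mul_one, ee_add, ee_int, mul_one]
  | zero => rfl
  | add f g _ _ hf hg => rw [Pi.add_apply, Pi.add_apply, hf, hg]
  | smul c f _ hf => rw [Pi.smul_apply, Pi.smul_apply, hf]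

/-- the ambient space of bounded functions on the set of the test functions -/
abbrev EE : Type := BoundedContinuousFunction TF ℂ

/-- point masses -/
noncomputable def dl (x : ℝ) : EE :=
  BoundedContinuousFunction.ofNormedAddCommGroup (fun f : TF => f.1 x)
    ((continuous_apply x).comp continuous_subtype_val) 1 (fun f => f.2.2.1 x)

lemma dl_apply (x : ℝ) (f : TF) : dl x f = f.1 x := rfl

lemma dl_sub_le (x y : ℝ) : ‖dl x - dl y‖ ≤ om (x - y) := by
  rw [BoundedContinuousFunction.norm_le (om_nonneg _)]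
  intro f
  exact f.2.2.2 x y

lemma dl_periodic (x : ℝ) : dl (x + 1) = dl x := by
  ext f
  exact trig_periodic f.2.1 x

lemma continuous_dl : Continuous dl := by
  rw [Metric.continuous_iff]
  intro y ε hε
  have h : Tendsto om (𝓝 0) (𝓝 0) := by
    have := continuous_om.tendsto 0
    rwa [om_zero] at this
  obtain ⟨δ, hδ, h⟩ := Metric.tendsto_nhds_nhds.1 h ε hε
  refine ⟨δ, hδ, fun x hx => ?_⟩
  rw [dist_eq_norm]
  refine (dl_sub_le x y).trans_lt ?_
  have h1 := @h (x - y) (by rwa [dist_zero_right, ← dist_eq_norm])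
  rwa [dist_zero_right, Real.norm_of_nonneg (om_nonneg _)] at h1

/-- the transformation of functions -/
noncomputable def lin (σ : ℤ) : (ℝ → ℂ) →ₗ[ℂ] (ℝ → ℂ) where
  toFun f x := (1 / 8 : ℂ) * (ee (σ * x + √2 / 2) * f (x + σ * √2))
  map_add' f g := by
    ext x
    simp only [Pi.add_apply]
    ring
  map_smul' c f := by
    ext x
    simp only [Pi.smul_apply, smul_eq_mul, RingHom.id_apply]
    ring

lemma lin_apply (σ : ℤ) (f : ℝ → ℂ) (x : ℝ) :
    lin σ f x = (1 / 8 : ℂ) * (ee (σ * x + √2 / 2) * f (x + σ * √2)) := rfl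

lemma lin_trig (σ : ℤ) {f : ℝ → ℂ} (hf : f ∈ Trig) : lin σ f ∈ Trig := by
  have : Trig ≤ Trig.comap (lin σ) := by
    conv_lhs => unfold Trig
    rw [Submodule.span_le]
    rintro _ ⟨j, rfl⟩
    rw [SetLike.mem_coe, Submodule.mem_comap]
    have h : lin σ (fun x : ℝ => ee (j * x)) =
        ((1 / 8 : ℂ) * ee (√2 / 2 + j * (σ * √2))) • fun x : ℝ => ee (((σ + j : ℤ) : ℝ) * x) := by
      ext x
      rw [lin_apply, Pi.smul_apply, smul_eq_mul, mul_assoc, ← ee_add, ← ee_add]
      congr 2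
      push_cast
      ring
    rw [h]
    exact Submodule.smul_mem _ _ (Submodule.subset_span ⟨σ + j, rfl⟩)
  exact this hf

lemma om_one_le {t : ℝ} (ht : 1 ≤ |t|) : 1 ≤ om t := by
  unfold om
  exact Real.one_le_rpow ht (by norm_num)

lemma le_om_of_le_one {t : ℝ} (ht : |t| ≤ 1) : |t| ≤ om t := by
  unfold om
  calc |t| = |t| ^ (1 : ℝ) := (Real.rpow_one _).symm
    _ ≤ |t| ^ (1 / 8 : ℝ) := Real.rpow_le_rpow_of_exponent_ge' (abs_nonneg _) ht (by norm_num)
        (by norm_num)

/-- `‖ee s - ee t‖` in terms of the modulus -/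
lemma ee_om (c s t : ℝ) : ‖ee (c * s) - ee (c * t)‖ ≤ (7 * |c| + 2) * om (s - t) := by
  have hπ : 2 * π ≤ 7 := by have := Real.pi_lt_d2; linarith
  rcases le_total |s - t| 1 with h | h
  · calc ‖ee (c * s) - ee (c * t)‖ ≤ 2 * π * |c * s - c * t| := ee_lip _ _
      _ = 2 * π * |c| * |s - t| := by rw [← mul_sub, abs_mul]; ring
      _ ≤ 7 * |c| * om (s - t) := by
          gcongr
          exact le_om_of_le_one h
      _ ≤ (7 * |c| + 2) * om (s - t) := by
          have := om_nonneg (s - t)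
          nlinarith
  · calc ‖ee (c * s) - ee (c * t)‖ ≤ 2 := ee_sub_le_two _ _
      _ ≤ (7 * |c| + 2) * 1 := by
          have := abs_nonneg c
          linarith
      _ ≤ (7 * |c| + 2) * om (s - t) := by
          gcongr
          exact om_one_le h

lemma ee_om' (s t : ℝ) : ‖ee s - ee t‖ ≤ 7 * om (s - t) := by
  have hπ : 2 * π ≤ 7 := by have := Real.pi_lt_d2; linarith
  rcases le_total |s - t| 1 with h | h
  · calc ‖ee s - ee t‖ ≤ 2 * π * |s - t| := ee_lip _ _
      _ ≤ 7 * om (s - t) := by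
          gcongr
          exact le_om_of_le_one h
  · calc ‖ee s - ee t‖ ≤ 2 := ee_sub_le_two _ _
      _ ≤ 7 * 1 := by norm_num
      _ ≤ 7 * om (s - t) := by
          gcongr
          exact om_one_le h

lemma lin_TF {σ : ℤ} (hσ : σ = 1 ∨ σ = -1) {f : ℝ → ℂ} (hf : f ∈ TF) : lin σ f ∈ TF := by
  obtain ⟨h1, h2, h3⟩ := hf
  have hσ' : |(σ : ℝ)| = 1 := by rcases hσ with rfl | rfl <;> simp
  refine ⟨lin_trig σ h1, fun x => ?_, fun x y => ?_⟩
  · rw [lin_apply, norm_mul, norm_mul, norm_ee, one_mul]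
    have := h2 (x + σ * √2)
    have h8 : ‖(1 / 8 : ℂ)‖ = 1 / 8 := by simp
    rw [h8]
    linarith
  · rw [lin_apply, lin_apply, ← mul_sub, norm_mul]
    have h8 : ‖(1 / 8 : ℂ)‖ = 1 / 8 := by simp
    rw [h8]
    have e : ee (σ * x + √2 / 2) * f (x + σ * √2) - ee (σ * y + √2 / 2) * f (y + σ * √2) =
        (ee (σ * x + √2 / 2) - ee (σ * y + √2 / 2)) * f (x + σ * √2) +
          ee (σ * y + √2 / 2) * (f (x + σ * √2) - f (y + σ * √2)) := by ring
    have h4 : ‖ee (σ * x + √2 / 2) - ee (σ * y + √2 / 2)‖ ≤ 7 * om (x - y) := by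
      refine (ee_om' _ _).trans (le_of_eq ?_)
      have : om (σ * x + √2 / 2 - (σ * y + √2 / 2)) = om (x - y) := by
        unfold om
        congr 1
        rw [show (σ : ℝ) * x + √2 / 2 - (σ * y + √2 / 2) = σ * (x - y) by ring, abs_mul, hσ', one_mul]
      rw [this]
    have h5 : ‖f (x + σ * √2) - f (y + σ * √2)‖ ≤ om (x - y) := by
      refine (h3 _ _).trans (le_of_eq ?_)
      congr 1
      ring
    rw [e]
    calc 1 / 8 * ‖(ee (σ * x + √2 / 2) - ee (σ * y + √2 / 2)) * f (x + σ * √2) +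
          ee (σ * y + √2 / 2) * (f (x + σ * √2) - f (y + σ * √2))‖
        ≤ 1 / 8 * (7 * om (x - y) * 1 + 1 * om (x - y)) := by
          gcongr
          refine (norm_add_le _ _).trans ?_
          rw [norm_mul, norm_mul, norm_ee]
          have h0 := om_nonneg (x - y)
          gcongr
          exact h2 _
      _ = om (x - y) := by ring

/-- the transformation of the test functions -/
noncomputable def tau (σ : ℤ) (hσ : σ = 1 ∨ σ = -1) : C(TF, TF) where
  toFun f := ⟨lin σ f.1, lin_TF hσ f.2⟩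
  continuous_toFun := by
    refine Continuous.subtype_mk (continuous_pi fun x => ?_) _
    simp only [lin_apply]
    exact continuous_const.mul (continuous_const.mul
      ((continuous_apply _).comp continuous_subtype_val))

/-- the operator on the ambient space -/
noncomputable def opE (σ : ℤ) (hσ : σ = 1 ∨ σ = -1) : EE →L[ℂ] EE :=
  LinearMap.mkContinuous
    { toFun := fun φ => (8 : ℂ) • φ.compContinuous (tau σ hσ)
      map_add' := fun φ ψ => by
        ext f
        simp [mul_add]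
      map_smul' := fun c φ => by
        ext f
        simp only [BoundedContinuousFunction.coe_smul, BoundedContinuousFunction.compContinuous_apply,
          smul_eq_mul, RingHom.id_apply]
        ring } 8 (fun φ => by
      rw [BoundedContinuousFunction.norm_le (by positivity)]
      intro f
      have h1 := φ.norm_coe_le_norm (tau σ hσ f)
      change ‖(8 : ℂ) * φ (tau σ hσ f)‖ ≤ 8 * ‖φ‖
      rw [norm_mul]
      have h8 : ‖(8 : ℂ)‖ = 8 := by simp
      rw [h8]
      linarith)

lemma opE_dl (σ : ℤ) (hσ : σ = 1 ∨ σ = -1) (x : ℝ) :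
    opE σ hσ (dl x) = ee (σ * x + √2 / 2) • dl (x + σ * √2) := by
  ext f
  change (8 : ℂ) * ((1 / 8 : ℂ) * (ee (σ * x + √2 / 2) * f.1 (x + σ * √2))) =
    ee (σ * x + √2 / 2) * f.1 (x + σ * √2)
  ring

/-- **the space**: the closed span of the point masses -/
noncomputable def XS : Submodule ℂ EE := (Submodule.span ℂ (Set.range dl)).topologicalClosure

lemma dl_mem (x : ℝ) : dl x ∈ XS :=
  Submodule.le_topologicalClosure _ (Submodule.subset_span ⟨x, rfl⟩)

lemma isClosed_XS : IsClosed (XS : Set EE) := Submodule.isClosed_topologicalClosure _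

/-- the space as a type -/
abbrev XX : Type := XS

instance : CompleteSpace XX := isClosed_XS.completeSpace_coe

/-- Two continuous linear maps which agree on the point masses agree on `XX`. -/
lemma eq_of_dl {F : Type*} [NormedAddCommGroup F] [NormedSpace ℂ F] (A B : EE →L[ℂ] F)
    (h : ∀ x, A (dl x) = B (dl x)) (m : EE) (hm : m ∈ XS) : A m = B m := by
  have h1 : Set.EqOn A B (closure (Submodule.span ℂ (Set.range dl) : Set EE)) := by
    apply ContinuousLinearMap.eqOn_closure_span
    rintro _ ⟨x, rfl⟩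
    exact h x
  apply h1
  rw [← Submodule.topologicalClosure_coe]
  exact hm

lemma opE_mem (σ : ℤ) (hσ : σ = 1 ∨ σ = -1) (m : EE) (hm : m ∈ XS) : opE σ hσ m ∈ XS := by
  have h : XS ≤ XS.comap (opE σ hσ : EE →ₗ[ℂ] EE) := by
    conv_lhs => unfold XS
    apply Submodule.topologicalClosure_minimal
    · rw [Submodule.span_le]
      rintro _ ⟨x, rfl⟩
      rw [SetLike.mem_coe, Submodule.mem_comap]
      change opE σ hσ (dl x) ∈ XS
      rw [opE_dl]
      exact Submodule.smul_mem _ _ (dl_mem _)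
    · exact isClosed_XS.preimage (opE σ hσ).continuous
  exact h hm

/-- the operators on `XX` -/
noncomputable def opX (σ : ℤ) (hσ : σ = 1 ∨ σ = -1) : XX →L[ℂ] XX :=
  ((opE σ hσ).comp XS.subtypeL).codRestrict XS (fun m => opE_mem σ hσ m m.2)

lemma opX_coe (σ : ℤ) (hσ : σ = 1 ∨ σ = -1) (m : XX) : (opX σ hσ m : EE) = opE σ hσ m := rfl

lemma opE_inv {σ σ' : ℤ} (hσ : σ = 1 ∨ σ = -1) (hσ' : σ' = 1 ∨ σ' = -1) (h : σ' = -σ) (m : EE)
    (hm : m ∈ XS) : opE σ' hσ' (opE σ hσ m) = m := by
  have := eq_of_dl ((opE σ' hσ').comp (opE σ hσ)) (ContinuousLinearMap.id ℂ EE) (by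
    intro x
    subst h
    rw [ContinuousLinearMap.comp_apply, opE_dl, map_smul, opE_dl, smul_smul, ← ee_add,
      ContinuousLinearMap.id_apply]
    have h1 : (σ : ℝ) * x + √2 / 2 + (((-σ : ℤ) : ℝ) * (x + σ * √2) + √2 / 2) = 0 := by
      have : (σ : ℝ) * σ = 1 := by rcases hσ with rfl | rfl <;> simp
      push_cast
      linear_combination (-√2) * this
    have h2 : x + (σ : ℝ) * √2 + ((-σ : ℤ) : ℝ) * √2 = x := by push_cast; ring
    rw [h1, h2, ee_zero, one_smul]) m hm
  exact this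

/-- **the operator** -/
noncomputable def TT : XX ≃L[ℂ] XX :=
  ContinuousLinearEquiv.equivOfInverse (opX 1 (Or.inl rfl)) (opX (-1) (Or.inr rfl))
    (fun m => Subtype.ext (opE_inv (Or.inl rfl) (Or.inr rfl) rfl m m.2))
    (fun m => Subtype.ext (opE_inv (Or.inr rfl) (Or.inl rfl) (by norm_num) m m.2))

/-- the point mass as an element of `XX` -/
noncomputable def dx (x : ℝ) : XX := ⟨dl x, dl_mem x⟩

lemma TT_dx (x : ℝ) : TT (dx x) = ee (x + √2 / 2) • dx (x + √2) := by
  apply Subtype.ext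
  change opE 1 (Or.inl rfl) (dl x) = ee (x + √2 / 2) • dl (x + √2)
  rw [opE_dl]
  simp

lemma TT_iter_dx (n : ℕ) (x : ℝ) :
    TT^[n] (dx x) = ee (n * x + n ^ 2 * √2 / 2) • dx (x + n * √2) := by
  induction n with
  | zero => simp [ee_zero]
  | succ n ih =>
    rw [Function.iterate_succ_apply', ih, map_smul, TT_dx, smul_smul, ← ee_add]
    congr 2
    · push_cast; ring
    · push_cast; ring

end Pool.Agent.Seat74.URD
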