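import Pool.Agent.Seat74.URD.Comb
import Pool.Agent.Seat74.URD.Space

/-!
# `IP*`-recurrence of the operator
-/

set_option autoImplicit false

open Filter Topology Real

namespace Pool.Agent.Seat74.URD

attribute [local instance] Ultrafilter.add

/-- the image in the circle -/
abbrev Cr : Type := AddCircle (1 : ℝ)

lemma tendsto_lin {p : Ultrafilter ℕ} (hp : p + p = p) (θ : ℝ) :
    Tendsto (fun n : ℕ => (((n : ℝ) * θ : ℝ) : Cr)) p (𝓝 0) := by
  refine tendsto_zero_of_idem hp _ (fun _ _ => 0) (fun m n => ?_) (fun _ => tendsto_const_nhds)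
  rw [add_zero, ← AddCircle.coe_add]
  congr 1
  push_cast
  ring

lemma tendsto_quad {p : Ultrafilter ℕ} (hp : p + p = p) (θ : ℝ) :
    Tendsto (fun n : ℕ => (((n : ℝ) ^ 2 * θ : ℝ) : Cr)) p (𝓝 0) := by
  refine tendsto_zero_of_idem hp _ (fun m n => (((n : ℝ) * (2 * m * θ) : ℝ) : Cr))
    (fun m n => ?_) (fun m => tendsto_lin hp _)
  rw [← AddCircle.coe_add, ← AddCircle.coe_add]
  congr 1
  push_cast
  ring

lemma ee_sub_round (t : ℝ) : ‖ee t - 1‖ ≤ 7 * ‖((t : ℝ) : Cr)‖ := by
  have h : ee t = ee (t - round t) := by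
    have : t = (t - round t) + ((round t : ℤ) : ℝ) := by ring
    conv_lhs => rw [this, ee_add, ee_int, mul_one]
  have hπ : 2 * π ≤ 7 := by have := Real.pi_lt_d2; linarith
  rw [h, UnitAddCircle.norm_eq, ← ee_zero]
  refine (ee_lip _ _).trans ?_
  rw [sub_zero]
  gcongr

lemma dl_sub_int (x : ℝ) (k : ℤ) : dl (x - k) = dl x := by
  have h : Function.Periodic dl 1 := dl_periodic
  have := h.sub_zsmul_eq k (x := x)
  simpa using this

lemma dl_sub_round (x t : ℝ) : ‖dl (x + t) - dl x‖ ≤ om ‖((t : ℝ) : Cr)‖ := by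
  rw [← dl_sub_int (x + t) (round t), UnitAddCircle.norm_eq]
  refine (dl_sub_le _ _).trans (le_of_eq ?_)
  unfold om
  rw [abs_abs]
  congr 2
  ring

lemma opE_iter_dl (n : ℕ) (x : ℝ) :
    (opE 1 (Or.inl rfl))^[n] (dl x) = ee (n * x + n ^ 2 * √2 / 2) • dl (x + n * √2) := by
  induction n with
  | zero => simp [ee_zero]
  | succ n ih =>
    rw [Function.iterate_succ_apply', ih, map_smul, opE_dl, smul_smul, ← ee_add]
    congr 2
    · push_cast; ring
    · push_cast; ring

lemma tendsto_dl {p : Ultrafilter ℕ} (hp : p + p = p) (x : ℝ) :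
    Tendsto (fun n : ℕ => (opE 1 (Or.inl rfl))^[n] (dl x)) p (𝓝 (dl x)) := by
  simp only [opE_iter_dl]
  have h1 : Tendsto (fun n : ℕ => ee (n * x + n ^ 2 * √2 / 2)) p (𝓝 1) := by
    have h2 : Tendsto (fun n : ℕ => (((n : ℝ) * x + n ^ 2 * √2 / 2 : ℝ) : Cr)) p (𝓝 0) := by
      have := (tendsto_lin hp x).add (tendsto_quad hp (√2 / 2))
      rw [add_zero] at this
      refine this.congr (fun n => ?_)
      rw [← AddCircle.coe_add]
      congr 1
      ring
    rw [tendsto_iff_norm_sub_tendsto_zero]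
    refine squeeze_zero (fun _ => norm_nonneg _) (fun n => ee_sub_round _) ?_
    have := (h2.norm).const_mul 7
    simpa using this
  have h3 : Tendsto (fun n : ℕ => dl (x + n * √2)) p (𝓝 (dl x)) := by
    rw [tendsto_iff_norm_sub_tendsto_zero]
    refine squeeze_zero (fun _ => norm_nonneg _) (fun n => dl_sub_round x _) ?_
    have h4 := (continuous_om.tendsto 0).comp ((tendsto_lin hp √2).norm.trans (by simp))
    rw [om_zero] at h4
    exact h4
  have := h1.smul h3
  rwa [one_smul] at this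

lemma tendsto_span {p : Ultrafilter ℕ} (hp : p + p = p) {w : EE}
    (hw : w ∈ Submodule.span ℂ (Set.range dl)) :
    Tendsto (fun n : ℕ => (opE 1 (Or.inl rfl))^[n] w) p (𝓝 w) := by
  have hadd : ∀ (n : ℕ) (u v : EE), (opE 1 (Or.inl rfl))^[n] (u + v) =
      (opE 1 (Or.inl rfl))^[n] u + (opE 1 (Or.inl rfl))^[n] v := by
    intro n u v
    rw [← FunLike.coe_pow_eq_iterate, map_add]
  have hsmul : ∀ (n : ℕ) (c : ℂ) (u : EE), (opE 1 (Or.inl rfl))^[n] (c • u) =
      c • (opE 1 (Or.inl rfl))^[n] u := by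
    intro n c u
    rw [← FunLike.coe_pow_eq_iterate, map_smul]
  induction hw using Submodule.span_induction with
  | mem w hw =>
    obtain ⟨x, rfl⟩ := hw
    exact tendsto_dl hp x
  | zero =>
    have : ∀ n : ℕ, (opE 1 (Or.inl rfl))^[n] (0 : EE) = 0 := fun n => by
      rw [← FunLike.coe_pow_eq_iterate, map_zero]
    simp only [this]
    exact tendsto_const_nhds
  | add u v _ _ hu hv =>
    simp only [hadd]
    exact hu.add hv
  | smul c u _ hu =>
    simp only [hsmul]
    exact hu.const_smul c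

lemma TT_iter_coe (n : ℕ) (v : XX) : ((TT^[n] v : XX) : EE) = (opE 1 (Or.inl rfl))^[n] (v : EE) := by
  induction n with
  | zero => rfl
  | succ n ih =>
    rw [Function.iterate_succ_apply', Function.iterate_succ_apply', ← ih]
    rfl

/-- the vectors with finite support -/
def Fin0 : Set XX := {v | (v : EE) ∈ Submodule.span ℂ (Set.range dl)}

lemma dense_Fin0 : Dense Fin0 := by
  intro v
  rw [closure_subtype]
  have hv : (v : EE) ∈ closure (Submodule.span ℂ (Set.range dl) : Set EE) := by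
    rw [← Submodule.topologicalClosure_coe]
    exact v.2
  refine closure_mono ?_ hv
  intro w hw
  exact ⟨⟨w, Submodule.le_topologicalClosure _ hw⟩, hw, rfl⟩

lemma ipStar_Fin0 {v : XX} (hv : v ∈ Fin0) : IPStarRecurrent TT v := by
  intro U hU
  apply ipStar_of_forall
  intro p hp
  have h1 : Tendsto (fun n : ℕ => TT^[n] v) p (𝓝 v) := by
    rw [tendsto_subtype_rng]
    simp only [TT_iter_coe]
    exact tendsto_span hp hv
  exact h1 hU

lemma unif_Fin0 {v : XX} (hv : v ∈ Fin0) : UniformlyRecurrent TT v :=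
  fun U hU => (ipStar_Fin0 hv U hU).syndetic

lemma separable_XX : TopologicalSpace.SeparableSpace XX := by
  have h1 : TopologicalSpace.IsSeparable (Set.range dl) := TopologicalSpace.isSeparable_range continuous_dl
  have h2 : TopologicalSpace.IsSeparable (XS : Set EE) := by
    have := (h1.span (R := ℂ)).closure
    unfold XS
    rwa [Submodule.topologicalClosure_coe]
  exact h2.separableSpace

end Pool.Agent.Seat74.URD
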