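import Pool.Agent.Seat74.URD.Baire
import Pool.Agent.Seat74.URD.Pos
import Pool.Agent.Seat74.URD.Est

/-!
# There are no nonzero `Δ*`-recurrent vectors
-/

set_option autoImplicit false

open Filter Topology Real

namespace Pool.Agent.Seat74.URD

/-- the normalised character as a test function -/
noncomputable def gT (j : ℤ) : TF := ⟨gfun j, gfun_TF j⟩

/-- evaluation at a test function -/
noncomputable def evT (f : TF) : EE →L[ℂ] ℂ := BoundedContinuousFunction.evalCLM ℂ f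

lemma evT_apply (f : TF) (m : EE) : evT f m = m f := rfl

variable {k : ℕ}

lemma sum_eq (hk : 1 ≤ k) (A B : Finset ℕ) (hA : A ⊆ Finset.range (k ^ 16))
    (hB : B ⊆ Finset.range (k ^ 32)) (hAB : ∀ n ∈ B, ∀ s ∈ A, s ≤ n) (j : ℤ) (m : XX) :
    ∑ n ∈ B, ∑ s ∈ A, ((TT^[n - s] m : XX) : EE) (gT j) =
      ((8 * (k : ℝ) ^ 45 : ℝ) : ℂ) * (m : EE) ⟨_, RR_TF hk A B hA hB hAB j⟩ := by
  have hk' : (1 : ℝ) ≤ k := by exact_mod_cast hk
  have hC : (0 : ℝ) < 8 * (k : ℝ) ^ 45 := by positivity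
  have h := eq_of_dl (∑ n ∈ B, ∑ s ∈ A, (evT (gT j)).comp ((opE 1 (Or.inl rfl)) ^ (n - s)))
    (((8 * (k : ℝ) ^ 45 : ℝ) : ℂ) • evT ⟨_, RR_TF hk A B hA hB hAB j⟩) (by
      intro x
      simp only [sum_apply, ContinuousLinearMap.comp_apply,
        FunLike.coe_pow_eq_iterate, opE_iter_dl, smul_apply, evT_apply,
        map_smul, smul_eq_mul, dl_apply]
      rw [← mul_assoc, ← Complex.ofReal_mul, mul_inv_cancel₀ hC.ne', Complex.ofReal_one, one_mul]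
      unfold RR
      apply Finset.sum_congr rfl
      intro n hn
      apply Finset.sum_congr rfl
      intro s hs
      rw [Nat.cast_sub (hAB n hn s hs)]
      rfl) m m.2
  simp only [sum_apply, ContinuousLinearMap.comp_apply,
        FunLike.coe_pow_eq_iterate, smul_apply, evT_apply, smul_eq_mul] at h
  simp only [TT_iter_coe]
  exact h

lemma sum_norm_le (hk : 1 ≤ k) (A B : Finset ℕ) (hA : A ⊆ Finset.range (k ^ 16))
    (hB : B ⊆ Finset.range (k ^ 32)) (hAB : ∀ n ∈ B, ∀ s ∈ A, s ≤ n) (j : ℤ) (m : XX) :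
    ‖∑ n ∈ B, ∑ s ∈ A, ((TT^[n - s] m : XX) : EE) (gT j)‖ ≤ 8 * (k : ℝ) ^ 45 * ‖m‖ := by
  rw [sum_eq hk A B hA hB hAB j m, norm_mul, Complex.norm_real,
    Real.norm_of_nonneg (by positivity)]
  gcongr
  exact (m : EE).norm_coe_le_norm _

/-- elements of syndetic sets in intervals -/
lemma card_ge {E : Set ℕ} {L : ℕ} (hL : ∀ n : ℕ, ∃ a ∈ E, n ≤ a ∧ a ≤ n + L)
    (a q c : ℕ) (hc : c = a + q * (L + 1)) : ∃ A : Finset ℕ, (∀ x ∈ A, x ∈ E ∧ a ≤ x ∧ x < c) ∧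
      A.card = q := by
  classical
  choose f hf using fun n => hL n
  have hinj : Set.InjOn (fun i => f (a + i * (L + 1))) (Finset.range q : Set ℕ) := by
    intro i _ i' _ h
    simp only at h
    have h1 := (hf (a + i * (L + 1))).2
    have h2 := (hf (a + i' * (L + 1))).2
    rw [h] at h1
    by_contra hne
    rcases Nat.lt_or_gt_of_ne hne with h3 | h3
    · have : (i + 1) * (L + 1) ≤ i' * (L + 1) := Nat.mul_le_mul_right _ h3
      rw [add_mul, one_mul] at this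
      omega
    · have : (i' + 1) * (L + 1) ≤ i * (L + 1) := Nat.mul_le_mul_right _ h3
      rw [add_mul, one_mul] at this
      omega
  refine ⟨(Finset.range q).image (fun i => f (a + i * (L + 1))), ?_, ?_⟩
  · intro b hb
    obtain ⟨i, hi, rfl⟩ := Finset.mem_image.1 hb
    have hiq := Finset.mem_range.1 hi
    have h1 := hf (a + i * (L + 1))
    have h2 : (i + 1) * (L + 1) ≤ q * (L + 1) := Nat.mul_le_mul_right _ hiq
    rw [add_mul, one_mul] at h2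
    exact ⟨h1.1, by omega, by omega⟩
  · rw [Finset.card_image_of_injOn hinj, Finset.card_range]

/-- Two finite subsets of a syndetic set. -/
lemma exists_sets {E : Set ℕ} {L : ℕ} (hL : ∀ n : ℕ, ∃ a ∈ E, n ≤ a ∧ a ≤ n + L)
    (hk1 : 1 ≤ k) (hdiv : (L + 1) ∣ k) :
    ∃ A B : Finset ℕ, A ⊆ Finset.range (k ^ 16) ∧ B ⊆ Finset.range (k ^ 32) ∧
      (∀ n ∈ B, ∀ s ∈ A, s ≤ n) ∧ (∀ n ∈ B, n ∈ E) ∧ (∀ s ∈ A, s ∈ E) ∧
      (k : ℝ) ^ 48 - (k : ℝ) ^ 32 ≤ (A.card : ℝ) * B.card * ((L : ℝ) + 1) ^ 2 := by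
  obtain ⟨q, hq⟩ : (L + 1) ∣ k ^ 16 := hdiv.trans (dvd_pow_self k (by norm_num))
  have hq' : k ^ 16 = 0 + q * (L + 1) := by rw [hq]; ring
  obtain ⟨r, hr⟩ : ∃ r, k ^ 32 = k ^ 16 + r * (L + 1) := by
    refine ⟨(k ^ 16 - 1) * q, ?_⟩
    have h1 : 1 ≤ k ^ 16 := Nat.one_le_pow _ _ hk1
    calc k ^ 32 = k ^ 16 * k ^ 16 := by rw [← pow_add]
      _ = ((k ^ 16 - 1) + 1) * k ^ 16 := by rw [Nat.sub_add_cancel h1]
      _ = k ^ 16 + (k ^ 16 - 1) * k ^ 16 := by ring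
      _ = k ^ 16 + (k ^ 16 - 1) * ((L + 1) * q) := by rw [← hq]
      _ = k ^ 16 + (k ^ 16 - 1) * q * (L + 1) := by ring
  have hqR : (q : ℝ) * (L + 1) = (k : ℝ) ^ 16 := by
    have : ((k ^ 16 : ℕ) : ℝ) = ((0 + q * (L + 1) : ℕ) : ℝ) := by rw [hq']
    push_cast at this
    linarith
  have hrR : (r : ℝ) * (L + 1) = (k : ℝ) ^ 32 - (k : ℝ) ^ 16 := by
    have : ((k ^ 32 : ℕ) : ℝ) = ((k ^ 16 + r * (L + 1) : ℕ) : ℝ) := by rw [hr]
    push_cast at this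
    linarith
  obtain ⟨A, hA, hAc⟩ := card_ge hL 0 q (k ^ 16) hq'
  obtain ⟨B, hB, hBc⟩ := card_ge hL (k ^ 16) r (k ^ 32) hr
  refine ⟨A, B, fun s hs => Finset.mem_range.2 (hA s hs).2.2,
    fun s hs => Finset.mem_range.2 (hB s hs).2.2, ?_, fun n hn => (hB n hn).1,
    fun n hn => (hA n hn).1, ?_⟩
  · intro n hn s hs
    exact (hA s hs).2.2.le.trans (hB n hn).2.1
  · rw [hAc, hBc]
    apply le_of_eq
    calc (k : ℝ) ^ 48 - (k : ℝ) ^ 32 = (k : ℝ) ^ 16 * ((k : ℝ) ^ 32 - (k : ℝ) ^ 16) := by ring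
      _ = ((q : ℝ) * (L + 1)) * ((r : ℝ) * (L + 1)) := by rw [hqR, hrR]
      _ = (q : ℝ) * r * ((L : ℝ) + 1) ^ 2 := by ring

lemma vanish_gT {m : XX} (hm : DeltaStarRecurrent TT m) (j : ℤ) : (m : EE) (gT j) = 0 := by
  rw [← norm_le_zero_iff]
  refine le_of_forall_pos_le_add fun ε hε => ?_
  rw [zero_add]
  set G : XX → ℂ := fun v => (v : EE) (gT j) with hG
  have hGc : Continuous G := (evT (gT j)).continuous.comp continuous_subtype_val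
  obtain ⟨E, ⟨L, hL⟩, hE⟩ := exists_syndetic TT.toHomeomorph hm hGc (half_pos hε)
  have hL0 : (0 : ℝ) < (L : ℝ) + 1 := by positivity
  -- choice of the scale
  obtain ⟨t, ht⟩ := exists_nat_gt (32 * ‖m‖ * ((L : ℝ) + 1) ^ 2 / ε)
  obtain ⟨k, hk2, hkt, hdiv⟩ : ∃ k : ℕ, 2 ≤ k ∧ t ≤ k ∧ (L + 1) ∣ k := by
    refine ⟨(t + 2) * (L + 1), ?_, ?_, Dvd.intro_left _ rfl⟩
    · nlinarith
    · nlinarith
  have hk1 : 1 ≤ k := by omega
  have hkR : (2 : ℝ) ≤ k := by exact_mod_cast hk2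
  have hktR : (t : ℝ) ≤ k := by exact_mod_cast hkt
  obtain ⟨A, B, hAs, hBs, hAB, hBE, hAE, hWlow⟩ := exists_sets hL hk1 hdiv
  set W : ℝ := (A.card : ℝ) * B.card with hW
  -- the main inequality
  have h1 := sum_norm_le hk1 A B hAs hBs hAB j m
  have h2 : ‖∑ n ∈ B, ∑ s ∈ A, (G (TT^[n - s] m) - G m)‖ ≤ W * (ε / 2) := by
    calc ‖∑ n ∈ B, ∑ s ∈ A, (G (TT^[n - s] m) - G m)‖ ≤ ∑ n ∈ B, ∑ s ∈ A, ε / 2 := by
          refine (norm_sum_le _ _).trans (Finset.sum_le_sum fun n hn => ?_)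
          refine (norm_sum_le _ _).trans (Finset.sum_le_sum fun s hs => ?_)
          exact hE n (hBE n hn) s (hAE s hs) (hAB n hn s hs)
      _ = W * (ε / 2) := by
          simp only [Finset.sum_const, nsmul_eq_mul]
          rw [hW]
          ring
  have h3 : (W : ℂ) * G m = (∑ n ∈ B, ∑ s ∈ A, G (TT^[n - s] m)) -
      ∑ n ∈ B, ∑ s ∈ A, (G (TT^[n - s] m) - G m) := by
    simp only [Finset.sum_sub_distrib, Finset.sum_const, nsmul_eq_mul]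
    rw [hW]
    push_cast
    ring
  have hW0 : 0 ≤ W := by positivity
  have h4 : W * ‖G m‖ ≤ 8 * (k : ℝ) ^ 45 * ‖m‖ + W * (ε / 2) := by
    have : ‖(W : ℂ) * G m‖ = W * ‖G m‖ := by
      rw [norm_mul, Complex.norm_real, Real.norm_of_nonneg hW0]
    rw [← this, h3]
    exact (norm_sub_le _ _).trans (add_le_add h1 h2)
  by_contra hcon
  push Not at hcon
  have h5 : W * (ε / 2) ≤ 8 * (k : ℝ) ^ 45 * ‖m‖ := by
    have : W * ε ≤ W * ‖G m‖ := by gcongr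
    linarith
  -- `W ≥ k^48 / (2 (L+1)^2)`
  have h6 : (k : ℝ) ^ 48 / 2 ≤ W * ((L : ℝ) + 1) ^ 2 := by
    refine le_trans ?_ hWlow
    have h7 : (k : ℝ) ^ 32 * 2 ≤ (k : ℝ) ^ 48 := by
      calc (k : ℝ) ^ 32 * 2 ≤ (k : ℝ) ^ 32 * (k : ℝ) ^ 16 := by
            gcongr
            calc (2 : ℝ) ≤ k := hkR
              _ = (k : ℝ) ^ 1 := (pow_one _).symm
              _ ≤ (k : ℝ) ^ 16 := pow_le_pow_right₀ (by linarith) (by norm_num)
        _ = (k : ℝ) ^ 48 := by ring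
    linarith
  have h8 : (k : ℝ) ^ 48 / 2 * (ε / 2) ≤ 8 * (k : ℝ) ^ 45 * ‖m‖ * ((L : ℝ) + 1) ^ 2 := by
    calc (k : ℝ) ^ 48 / 2 * (ε / 2) ≤ W * ((L : ℝ) + 1) ^ 2 * (ε / 2) := by gcongr
      _ = (W * (ε / 2)) * ((L : ℝ) + 1) ^ 2 := by ring
      _ ≤ (8 * (k : ℝ) ^ 45 * ‖m‖) * ((L : ℝ) + 1) ^ 2 := by gcongr
      _ = 8 * (k : ℝ) ^ 45 * ‖m‖ * ((L : ℝ) + 1) ^ 2 := by ring
  have hk45 : (0 : ℝ) < (k : ℝ) ^ 45 := by positivity
  have h9 : (k : ℝ) ^ 3 * ε ≤ 32 * ‖m‖ * ((L : ℝ) + 1) ^ 2 := by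
    have h10 : (k : ℝ) ^ 45 * ((k : ℝ) ^ 3 * ε) ≤ (k : ℝ) ^ 45 * (32 * ‖m‖ * ((L : ℝ) + 1) ^ 2) := by
      have e1 : (k : ℝ) ^ 45 * ((k : ℝ) ^ 3 * ε) = 4 * ((k : ℝ) ^ 48 / 2 * (ε / 2)) := by ring
      have e2 : (k : ℝ) ^ 45 * (32 * ‖m‖ * ((L : ℝ) + 1) ^ 2) =
          4 * (8 * (k : ℝ) ^ 45 * ‖m‖ * ((L : ℝ) + 1) ^ 2) := by ring
      rw [e1, e2]
      gcongr
    exact le_of_mul_le_mul_left h10 hk45
  have h11 : 32 * ‖m‖ * ((L : ℝ) + 1) ^ 2 < t * ε := by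
    rwa [div_lt_iff₀ hε] at ht
  have h12 : (t : ℝ) * ε ≤ (k : ℝ) ^ 3 * ε := by
    gcongr
    calc (t : ℝ) ≤ k := hktR
      _ = (k : ℝ) ^ 1 := (pow_one _).symm
      _ ≤ (k : ℝ) ^ 3 := pow_le_pow_right₀ (by linarith) (by norm_num)
  linarith

/-- **A `Δ*`-recurrent vector is zero.** -/
theorem eq_zero_of_deltaStar {m : XX} (hm : DeltaStarRecurrent TT m) : m = 0 := by
  apply Subtype.ext
  ext P
  change (m : EE) P = 0
  obtain ⟨c, hc⟩ := (Finsupp.mem_span_range_iff_exists_finsupp).1 P.2.1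
  have h := eq_of_dl (evT P) (∑ j ∈ c.support, (c j * (cj j : ℂ)) • evT (gT j)) (by
    intro x
    simp only [sum_apply, smul_apply, evT_apply, smul_eq_mul, dl_apply]
    rw [← hc, Finsupp.sum, Finset.sum_apply]
    apply Finset.sum_congr rfl
    intro j _
    rw [Pi.smul_apply, smul_eq_mul]
    change c j * ee (j * x) = c j * (cj j : ℂ) * ((((cj j)⁻¹ : ℝ) : ℂ) * ee (j * x))
    have h1 : (cj j : ℂ) * (((cj j)⁻¹ : ℝ) : ℂ) = 1 := by
      rw [← Complex.ofReal_mul, mul_inv_cancel₀ (cj_pos j).ne', Complex.ofReal_one]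
    calc c j * ee (j * x) = c j * ((cj j : ℂ) * (((cj j)⁻¹ : ℝ) : ℂ)) * ee (j * x) := by
          rw [h1, mul_one]
      _ = _ := by ring) m m.2
  simp only [sum_apply, smul_apply, evT_apply, smul_eq_mul, vanish_gT hm, mul_zero,
    Finset.sum_const_zero] at h
  exact h

end Pool.Agent.Seat74.URD
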